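import Pool.Graph.R_seed8.W257.FS.D

/-! Vanishing means in the residue classes `1` modulo `M`: infinite distance to all Dirichlet characters. -/

set_option autoImplicit false

open Finset Filter Topology
open Pool.Agent.W257.FS

namespace Pool.Agent.Helper34.FY

lemma cnt_le (N M d : ℕ) (hd : M.Coprime d) :
    (((Icc 1 N).filter (fun n => n % M = 1 % M ∧ d ∣ n)).card : ℝ) ≤ N / (M * d) + 1 := by
  have h1 : ((Icc 1 N).filter (fun n => n % M = 1 % M ∧ d ∣ n)).card ≤ (range (N / (M * d) + 1)).card := by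
    refine Finset.card_le_card_of_injOn (fun n => n / (M * d)) ?_ ?_
    · intro n hn
      have hn' := (mem_filter.1 hn).1
      simp only [coe_range, Set.mem_Iio]
      exact Nat.lt_succ_of_le (Nat.div_le_div_right (mem_Icc.1 hn').2)
    · intro n hn m hm hnm
      have hn' := (mem_filter.1 hn).2
      have hm' := (mem_filter.1 hm).2
      have h2 : n ≡ m [MOD M * d] := by
        rw [← Nat.modEq_and_modEq_iff_modEq_mul hd]
        exact ⟨hn'.1.trans hm'.1.symm,
          (Nat.modEq_zero_iff_dvd.2 hn'.2).trans (Nat.modEq_zero_iff_dvd.2 hm'.2).symm⟩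
      have h3 := Nat.div_add_mod n (M * d)
      have h4 := Nat.div_add_mod m (M * d)
      simp only at hnm
      rw [hnm] at h3
      have h5 : n % (M * d) = m % (M * d) := h2
      omega
  rw [card_range] at h1
  have h2 : (((N / (M * d) : ℕ)) : ℝ) ≤ (N : ℝ) / ((M * d : ℕ) : ℝ) := Nat.cast_div_le
  have h3 : ((((Icc 1 N).filter (fun n => n % M = 1 % M ∧ d ∣ n)).card : ℕ) : ℝ) ≤
      ((N / (M * d) + 1 : ℕ) : ℝ) := by exact_mod_cast h1
  push_cast at h2 h3
  linarith

lemma cnt_ge (N M : ℕ) (hM : 1 ≤ M) :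
    (N : ℝ) / M - 1 ≤ (((Icc 1 N).filter (fun n => n % M = 1 % M)).card : ℝ) := by
  rcases Nat.eq_zero_or_pos N with hN | hN
  · subst hN
    simp
  have h1 : (range ((N - 1) / M + 1)).card ≤ ((Icc 1 N).filter (fun n => n % M = 1 % M)).card := by
    refine Finset.card_le_card_of_injOn (fun j => 1 + M * j) ?_ ?_
    · intro j hj
      simp only [coe_range, Set.mem_Iio] at hj
      have h2 : j ≤ (N - 1) / M := by omega
      have h3 : j * M ≤ N - 1 := (Nat.le_div_iff_mul_le hM).1 h2
      simp only [coe_filter, mem_Icc, Set.mem_ofPred_eq]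
      refine ⟨⟨by omega, ?_⟩, Nat.add_mul_mod_self_left 1 M j⟩
      rw [mul_comm]
      omega
    · intro j _ k _ hjk
      simp only at hjk
      have : M * j = M * k := by omega
      exact Nat.eq_of_mul_eq_mul_left hM this
  rw [card_range] at h1
  have h2 : (N - 1) < M * ((N - 1) / M + 1) := Nat.lt_mul_div_succ (N - 1) hM
  have h3 : ((N - 1 : ℕ) : ℝ) < M * (((N - 1) / M : ℕ) + 1) := by exact_mod_cast h2
  rw [Nat.cast_sub hN] at h3
  push_cast at h3
  have hM' : (1 : ℝ) ≤ M := by exact_mod_cast hM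
  have h4 : ((((N - 1) / M : ℕ)) : ℝ) + 1 ≤ (((Icc 1 N).filter (fun n => n % M = 1 % M)).card : ℝ) := by
    exact_mod_cast h1
  have h5 : (N : ℝ) / M < (((N - 1) / M : ℕ)) + 1 + 1 := by
    rw [div_lt_iff₀ (by linarith)]
    nlinarith
  linarith

lemma tail {c : ℕ → ℝ} (hc : Summable c) {ε : ℝ} (hε : 0 < ε) :
    ∃ x₀ : ℕ, ∀ t : Finset ℕ, (∀ d ∈ t, x₀ < d) → ∑ d ∈ t, c d < ε := by
  obtain ⟨s, hs⟩ := summable_iff_vanishing_norm.1 hc ε hε
  refine ⟨s.sup id, fun t ht => ?_⟩
  have h1 := hs t (by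
    rw [disjoint_left]
    intro d hd hds
    have h2 := ht d hd
    have h3 : d ≤ s.sup id := Finset.le_sup (f := id) hds
    omega)
  exact lt_of_le_of_lt (le_abs_self _) h1

lemma re_lt {v : ℂ} (h1 : ‖v‖ ≤ 1) (h : v ≠ 1) : v.re < 1 := by
  have h2 : v.re ≤ ‖v‖ := Complex.re_le_norm v
  rcases lt_or_eq_of_le (h2.trans h1) with h3 | h3
  · exact h3
  · exfalso
    apply h
    have h4 : ‖v‖ ^ 2 = v.re ^ 2 + v.im ^ 2 := by
      rw [Complex.sq_norm, Complex.normSq_apply]; ring
    have h5 : ‖v‖ ^ 2 ≤ 1 := pow_le_one₀ (norm_nonneg _) h1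
    have h6 : v.im ^ 2 ≤ 0 := by
      rw [h4, h3] at h5
      linarith
    have h7 : v.im = 0 := by
      have := sq_nonneg v.im
      exact pow_eq_zero_iff (two_ne_zero) |>.1 (le_antisymm h6 this)
    exact Complex.ext h3 h7

open Classical in
/-- the values at the primes are bounded away from those with the value one -/
lemma gap {q : ℕ} [NeZero q] (χ : DirichletCharacter ℂ q) :
    ∃ c : ℝ, 0 < c ∧ ∀ (a : ZMod q) (s : ℝ), s = 1 ∨ s = -1 → (s : ℂ) * star (χ a) ≠ 1 →
      c ≤ 1 - ((s : ℂ) * star (χ a)).re := by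
  let v : ZMod q × Bool → ℂ := fun x => ((if x.2 then (1 : ℝ) else -1 : ℝ) : ℂ) * star (χ x.1)
  let φ : ZMod q × Bool → ℝ := fun x => if v x = 1 then 1 else 1 - (v x).re
  obtain ⟨x₀, hx₀⟩ := Finite.exists_min φ
  have hpos : ∀ x, 0 < φ x := by
    intro x
    simp only [φ]
    split_ifs with h
    · exact one_pos
    · have h1 : ‖v x‖ ≤ 1 := by
        simp only [v]
        rw [norm_mul, norm_star, Complex.norm_real]
        have h2 : ‖(if x.2 then (1 : ℝ) else -1 : ℝ)‖ = 1 := by split_ifs <;> simp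
        rw [h2, one_mul]
        exact χ.norm_le_one _
      linarith [re_lt h1 h]
  refine ⟨φ x₀, hpos x₀, fun a s hs hne => ?_⟩
  rcases hs with rfl | rfl
  · have h1 := hx₀ (a, true)
    have h2 : v (a, true) = ((1 : ℝ) : ℂ) * star (χ a) := by simp [v]
    simp only [φ] at h1 ⊢
    rw [h2] at h1
    rw [if_neg hne] at h1
    exact h1
  · have h1 := hx₀ (a, false)
    have h2 : v (a, false) = ((-1 : ℝ) : ℂ) * star (χ a) := by simp [v]
    simp only [φ] at h1 ⊢
    rw [h2] at h1
    rw [if_neg hne] at h1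
    exact h1

open Classical in
lemma sq_summable : Summable (fun d : ℕ => if ∃ k : ℕ, d = k ^ 2 then (1 : ℝ) / d else 0) := by
  have hi : Function.Injective (fun k : ℕ => k ^ 2) := fun a b h => by
    exact Nat.pow_left_injective (n := 2) (by norm_num) h
  rw [← hi.summable_iff]
  · refine (Real.summable_one_div_nat_pow.2 (by norm_num : 1 < 2)).congr fun k => ?_
    simp only [Function.comp_apply]
    rw [if_pos ⟨k, rfl⟩]
    push_cast
    rfl
  · intro d hd
    rw [if_neg]
    rintro ⟨k, rfl⟩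
    exact hd ⟨k, rfl⟩

/-- good integers -/
lemma good {F : ℕ → ℝ} (hF : SignMul F) {q : ℕ} (χ : DirichletCharacter ℂ q) (n : ℕ) (hn : 1 ≤ n)
    (h1 : ∀ p, p.Prime → p ∣ n → (F p : ℂ) * star (χ (p : ZMod q)) = 1)
    (h2 : ∀ p, p.Prime → ¬ p ^ 2 ∣ n) :
    ∀ m, m ∣ n → (F m : ℂ) * star (χ (m : ZMod q)) = 1 := by
  intro m
  induction m using Nat.strong_induction_on with
  | _ m ih =>
    intro hm
    by_cases hm1 : m = 1
    · subst hm1
      rw [hF.one]
      simp
    · have hp := Nat.minFac_prime hm1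
      set p := m.minFac with hpdef
      have hpm : p ∣ m := Nat.minFac_dvd m
      obtain ⟨k, hk⟩ := hpm
      have hm0 : 0 < m := Nat.pos_of_dvd_of_pos hm hn
      have hkm : k < m := by
        rw [hk]
        have hk0 : 0 < k := by
          rcases Nat.eq_zero_or_pos k with h0 | h0
          · rw [h0, mul_zero] at hk; omega
          · exact h0
        have := hp.two_le
        nlinarith
      have hpk : ¬ p ∣ k := by
        rintro ⟨l, hl⟩
        apply h2 p hp
        have : p ^ 2 ∣ m := ⟨l, by rw [hk, hl]; ring⟩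
        exact this.trans hm
      have hcop : Nat.Coprime p k := (Nat.Prime.coprime_iff_not_dvd hp).2 hpk
      have hkn : k ∣ n := (Dvd.intro_left p hk.symm).trans hm
      have hpn : p ∣ n := (Dvd.intro k hk.symm).trans hm
      have h3 := ih k hkm hkn
      have h4 := h1 p hp hpn
      rw [hk, hF.mul p k hcop]
      push_cast
      rw [map_mul, star_mul']
      calc (F p : ℂ) * (F k : ℂ) * (star (χ (p : ZMod q)) * star (χ (k : ZMod q)))
          = ((F p : ℂ) * star (χ (p : ZMod q))) * ((F k : ℂ) * star (χ (k : ZMod q))) := by ring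
        _ = 1 := by rw [h3, h4, one_mul]

open Classical in
/-- Vanishing means in the residue classes of `1`: infinite distance to all Dirichlet characters. -/
theorem aper_of_means {F : ℕ → ℝ} (hF : SignMul F)
    (h : ∀ M : ℕ, 1 ≤ M → Tendsto (fun N : ℕ =>
      (∑ n ∈ Icc 1 N, if n % M = 1 % M then F n else 0) / (N : ℝ)) atTop (𝓝 0))
    (q : ℕ) (hq : 1 ≤ q) (χ : DirichletCharacter ℂ q) :
    ¬ Summable (fun p : Nat.Primes =>
      (1 - ((F p : ℂ) * star (χ ((p : ℕ) : ZMod q))).re) / ((p : ℕ) : ℝ)) := by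
  intro hs
  have : NeZero q := ⟨by omega⟩
  obtain ⟨c, hc0, hc⟩ := gap χ
  set B : ℕ → Prop := fun p => (F p : ℂ) * star (χ (p : ZMod q)) ≠ 1 with hB
  -- the bad primes
  have hs1 : Summable (fun p : Nat.Primes => if B p then (1 : ℝ) / (p : ℕ) else 0) := by
    refine Summable.of_nonneg_of_le (fun p => ?_) (fun p => ?_) (hs.mul_left (1 / c))
    · split_ifs
      · positivity
      · exact le_rfl
    · have hp0 : (0 : ℝ) < ((p : ℕ) : ℝ) := by exact_mod_cast p.2.pos
      split_ifs with hBp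
      · have h1 := hc (p : ZMod q) (F p) (hF.val p p.2.one_lt.le) hBp
        rw [← mul_div_assoc]
        apply div_le_div_of_nonneg_right _ hp0.le
        rw [one_div, ← div_eq_inv_mul, le_div_iff₀ hc0, one_mul]
        exact h1
      · have h2 : ((F p : ℂ) * star (χ ((p : ℕ) : ZMod q))) = 1 := by
          by_contra h3
          exact hBp h3
        rw [h2]
        simp
  have hs2 : Summable (fun d : ℕ => if d.Prime ∧ B d then (1 : ℝ) / d else 0) := by
    have hi : Function.Injective (fun p : Nat.Primes => (p : ℕ)) := Subtype.val_injective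
    rw [← hi.summable_iff]
    · refine hs1.congr fun p => ?_
      simp only [Function.comp_apply]
      by_cases hBp : B p
      · rw [if_pos hBp, if_pos ⟨p.2, hBp⟩]
      · rw [if_neg hBp, if_neg (fun h' => hBp h'.2)]
    · intro d hd
      rw [if_neg]
      rintro ⟨h1, -⟩
      exact hd ⟨⟨d, h1⟩, rfl⟩
  set D : ℕ → Prop := fun d => (d.Prime ∧ B d) ∨ ∃ p : ℕ, p.Prime ∧ d = p ^ 2 with hD
  set w : ℕ → ℝ := fun d => if D d then (1 : ℝ) / d else 0 with hw
  have hw0 : ∀ d, 0 ≤ w d := by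
    intro d
    simp only [hw]
    split_ifs
    · positivity
    · exact le_rfl
  have hws : Summable w := by
    refine Summable.of_nonneg_of_le hw0 (fun d => ?_) (hs2.add sq_summable)
    simp only [hw]
    have h1 : (0 : ℝ) ≤ 1 / (d : ℝ) := by positivity
    by_cases hDd : D d
    · rw [if_pos hDd]
      rcases hDd with h2 | ⟨p, -, h2⟩
      · rw [if_pos h2]
        have : (0 : ℝ) ≤ if ∃ k : ℕ, d = k ^ 2 then (1 : ℝ) / d else 0 := by
          split_ifs
          · exact h1
          · exact le_rfl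
        linarith
      · have : (if ∃ k : ℕ, d = k ^ 2 then (1 : ℝ) / (d : ℝ) else 0) = 1 / (d : ℝ) := if_pos ⟨p, h2⟩
        rw [this]
        have : (0 : ℝ) ≤ if d.Prime ∧ B d then (1 : ℝ) / d else 0 := by
          split_ifs
          · exact h1
          · exact le_rfl
        linarith
    · rw [if_neg hDd]
      have h3 : (0 : ℝ) ≤ if d.Prime ∧ B d then (1 : ℝ) / d else 0 := by
        split_ifs
        · exact h1
        · exact le_rfl
      have h4 : (0 : ℝ) ≤ if ∃ k : ℕ, d = k ^ 2 then (1 : ℝ) / d else 0 := by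
        split_ifs
        · exact h1
        · exact le_rfl
      linarith
  obtain ⟨x₀, hx₀⟩ := tail hws (by norm_num : (0 : ℝ) < 1 / 8)
  set M : ℕ := q * x₀.factorial with hM
  have hM1 : 1 ≤ M := Nat.mul_pos hq x₀.factorial_pos
  have hMr : (1 : ℝ) ≤ M := by exact_mod_cast hM1
  obtain ⟨x₁, hx₁⟩ := tail hws (by positivity : (0 : ℝ) < 1 / (16 * M))
  -- prime factors of the n = 1 mod M
  have hpM : ∀ n p : ℕ, n % M = 1 % M → p.Prime → p ∣ n → ¬ p ∣ M := by
    intro n p hn hp hpn hpM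
    have h1 : n ≡ 1 [MOD M] := hn
    have h2 : n ≡ 1 [MOD p] := h1.of_dvd hpM
    have h3 : 1 ≡ 0 [MOD p] := h2.symm.trans ((Nat.modEq_zero_iff_dvd).2 hpn)
    have h4 : p ∣ 1 := (Nat.modEq_zero_iff_dvd).1 h3
    exact hp.one_lt.ne' (Nat.dvd_one.1 h4)
  have hpx : ∀ n p : ℕ, n % M = 1 % M → p.Prime → p ∣ n → x₀ < p := by
    intro n p hn hp hpn
    by_contra hcon
    push Not at hcon
    exact hpM n p hn hp hpn ((Nat.dvd_factorial hp.pos hcon).trans (Dvd.intro_left q rfl))
  have hDn : ∀ n d : ℕ, n % M = 1 % M → D d → d ∣ n → M.Coprime d ∧ x₀ < d ∧ 1 ≤ d := by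
    intro n d hn hd hdn
    rcases hd with ⟨hp, -⟩ | ⟨p, hp, rfl⟩
    · refine ⟨?_, hpx n d hn hp hdn, hp.one_lt.le⟩
      exact ((Nat.Prime.coprime_iff_not_dvd hp).2 (hpM n d hn hp hdn)).symm
    · have hpn : p ∣ n := (Dvd.intro_left (p ^ 1) (by ring)).trans hdn
      have h1 := hpx n p hn hp hpn
      refine ⟨?_, ?_, Nat.one_le_pow _ _ hp.pos⟩
      · exact (Nat.Coprime.pow_left 2 ((Nat.Prime.coprime_iff_not_dvd hp).2 (hpM n p hn hp hpn))).symm
      · have := hp.one_lt
        nlinarith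
  -- the value at good integers
  have hgood : ∀ n : ℕ, 1 ≤ n → n % M = 1 % M → (∀ d, D d → ¬ d ∣ n) → F n = 1 := by
    intro n hn hnM hnD
    have h1 := good hF χ n hn (fun p hp hpn => by
      by_contra hne
      exact hnD p (Or.inl ⟨hp, hne⟩) hpn) (fun p hp => hnD (p ^ 2) (Or.inr ⟨p, hp, rfl⟩)) n dvd_rfl
    have h2 : n ≡ 1 [MOD q] := Nat.ModEq.of_dvd (Dvd.intro _ rfl) (show n ≡ 1 [MOD M] from hnM)
    have h3 : ((n : ℕ) : ZMod q) = 1 := by
      have := (ZMod.natCast_eq_natCast_iff n 1 q).2 h2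
      simpa using this
    rw [h3, map_one, star_one, mul_one] at h1
    exact_mod_cast h1
  -- the bad integers
  have hbad : ∀ N : ℕ, x₁ * M < N →
      (((Icc 1 N).filter (fun n => n % M = 1 % M ∧ ∃ d, D d ∧ d ∣ n)).card : ℝ) ≤
        5 * N / (16 * M) := by
    intro N hN
    have hN0 : (0 : ℝ) ≤ N := Nat.cast_nonneg N
    set T : Finset ℕ := (Icc 1 N).filter (fun d => D d ∧ x₀ < d ∧ M.Coprime d) with hT
    have h1 : (Icc 1 N).filter (fun n => n % M = 1 % M ∧ ∃ d, D d ∧ d ∣ n) ⊆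
        T.biUnion (fun d => (Icc 1 N).filter (fun n => n % M = 1 % M ∧ d ∣ n)) := by
      intro n hn
      rw [mem_filter] at hn
      obtain ⟨hn1, hn2, d, hd, hdn⟩ := hn
      have h2 := hDn n d hn2 hd hdn
      rw [mem_Icc] at hn1
      rw [mem_biUnion]
      refine ⟨d, ?_, ?_⟩
      · rw [hT, mem_filter, mem_Icc]
        exact ⟨⟨h2.2.2, (Nat.le_of_dvd hn1.1 hdn).trans hn1.2⟩, hd, h2.2.1, h2.1⟩
      · rw [mem_filter, mem_Icc]
        exact ⟨hn1, hn2, hdn⟩
    have h2 : (((Icc 1 N).filter (fun n => n % M = 1 % M ∧ ∃ d, D d ∧ d ∣ n)).card : ℝ) ≤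
        ∑ d ∈ T, ((N : ℝ) / (M * d) + 1) := by
      refine le_trans (b := ((∑ d ∈ T, ((Icc 1 N).filter (fun n => n % M = 1 % M ∧ d ∣ n)).card : ℕ) : ℝ))
        (by exact_mod_cast (card_le_card h1).trans card_biUnion_le) ?_
      push_cast
      refine sum_le_sum fun d hd => ?_
      rw [hT, mem_filter] at hd
      exact cnt_le N M d hd.2.2.2
    have h3 : ∀ d ∈ T, (N : ℝ) / (M * d) + 1 ≤ 2 * N / M * w d + N * (if x₁ < d then w d else 0) := by
      intro d hd
      rw [hT, mem_filter, mem_Icc] at hd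
      have hd1 : (1 : ℝ) ≤ d := by exact_mod_cast hd.1.1
      have hdN : (d : ℝ) ≤ N := by exact_mod_cast hd.1.2
      have hwd : w d = 1 / d := if_pos hd.2.1
      rw [hwd]
      by_cases hdM : d * M ≤ N
      · have hdM' : (d : ℝ) * M ≤ N := by exact_mod_cast hdM
        have h4 : (1 : ℝ) ≤ N / (M * d) := by
          rw [le_div_iff₀ (by positivity)]
          linarith
        have h5 : (0 : ℝ) ≤ N * (if x₁ < d then 1 / (d : ℝ) else 0) := by
          apply mul_nonneg hN0
          split_ifs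
          · positivity
          · exact le_rfl
        have h6 : 2 * (N : ℝ) / M * (1 / d) = 2 * (N / (M * d)) := by
          field_simp
        rw [h6]
        linarith
      · push Not at hdM
        have hx : x₁ < d := by
          by_contra hcon
          push Not at hcon
          have := Nat.mul_le_mul_right M hcon
          omega
        rw [if_pos hx]
        have h4 : (1 : ℝ) ≤ N * (1 / d) := by
          rw [mul_one_div, le_div_iff₀ (by linarith)]
          linarith
        have h6 : 2 * (N : ℝ) / M * (1 / d) = 2 * (N / (M * d)) := by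
          field_simp
        have h7 : (0 : ℝ) ≤ N / (M * d) := by positivity
        rw [h6]
        linarith
    refine h2.trans ((sum_le_sum h3).trans ?_)
    rw [sum_add_distrib, ← mul_sum, ← mul_sum]
    have h4 : ∑ d ∈ T, w d < 1 / 8 := hx₀ T (fun d hd => by
      rw [hT, mem_filter] at hd
      exact hd.2.2.1)
    have h5 : ∑ d ∈ T, (if x₁ < d then w d else 0) < 1 / (16 * M) := by
      rw [← sum_filter]
      exact hx₁ _ (fun d hd => (mem_filter.1 hd).2)
    have h6 : 2 * (N : ℝ) / M * ∑ d ∈ T, w d ≤ 2 * (N : ℝ) / M * (1 / 8) :=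
      mul_le_mul_of_nonneg_left h4.le (by positivity)
    have h7 : (N : ℝ) * ∑ d ∈ T, (if x₁ < d then w d else 0) ≤ N * (1 / (16 * M)) :=
      mul_le_mul_of_nonneg_left h5.le hN0
    have h8 : 5 * (N : ℝ) / (16 * M) = 2 * (N : ℝ) / M * (1 / 8) + N * (1 / (16 * M)) := by
      field_simp
      ring
    rw [h8]
    linarith
  -- the means
  have hmean : ∀ N : ℕ, x₁ * M < N →
      (N : ℝ) / M - 1 - 2 * (5 * N / (16 * M)) ≤ ∑ n ∈ Icc 1 N, if n % M = 1 % M then F n else 0 := by
    intro N hN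
    have h1 : (N : ℝ) / M - 1 ≤ ∑ n ∈ Icc 1 N, (if n % M = 1 % M then (1 : ℝ) else 0) := by
      refine (cnt_ge N M hM1).trans ?_
      rw [← sum_filter, sum_const, nsmul_eq_mul, mul_one]
    have h2 : ∑ n ∈ Icc 1 N, (if n % M = 1 % M ∧ ∃ d, D d ∧ d ∣ n then (1 : ℝ) else 0) ≤
        5 * N / (16 * M) := by
      refine le_trans ?_ (hbad N hN)
      rw [← sum_filter, sum_const, nsmul_eq_mul, mul_one]
    have h3 : ∑ n ∈ Icc 1 N, ((if n % M = 1 % M then (1 : ℝ) else 0) -
        2 * (if n % M = 1 % M ∧ ∃ d, D d ∧ d ∣ n then (1 : ℝ) else 0)) ≤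
        ∑ n ∈ Icc 1 N, if n % M = 1 % M then F n else 0 := by
      refine sum_le_sum fun n hn => ?_
      have hn1 := (mem_Icc.1 hn).1
      by_cases h4 : n % M = 1 % M
      · rw [if_pos h4, if_pos h4]
        by_cases h5 : ∃ d, D d ∧ d ∣ n
        · rw [if_pos ⟨h4, h5⟩]
          rcases hF.val n hn1 with h6 | h6 <;> rw [h6] <;> norm_num
        · rw [if_neg (fun h' => h5 h'.2)]
          have h6 := hgood n hn1 h4 (fun d hd hdn => h5 ⟨d, hd, hdn⟩)
          rw [h6]
          norm_num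
      · rw [if_neg h4, if_neg h4, if_neg (fun h' => h4 h'.1)]
        norm_num
    rw [sum_sub_distrib, ← mul_sum] at h3
    linarith
  have h1 := h M hM1
  rw [Metric.tendsto_nhds] at h1
  obtain ⟨N₀, hN₀⟩ := eventually_atTop.1 (h1 (1 / (8 * M)) (by positivity))
  set N : ℕ := max N₀ (max (x₁ * M + 1) (8 * M)) with hN
  have h2 := hN₀ N (le_max_left _ _)
  have h3 := hmean N (lt_of_lt_of_le (Nat.lt_succ_self _) ((le_max_left _ _).trans (le_max_right _ _)))
  have h4 : 8 * M ≤ N := (le_max_right _ _).trans (le_max_right _ _)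
  have h4' : 8 * (M : ℝ) ≤ N := by exact_mod_cast h4
  have hNpos : (0 : ℝ) < N := by linarith
  rw [Real.dist_eq, sub_zero, abs_div, abs_of_pos hNpos, div_lt_iff₀ hNpos] at h2
  have h5 := lt_of_le_of_lt (le_abs_self _) h2
  have h6 : (N : ℝ) / M - 1 - 2 * (5 * N / (16 * M)) = 3 * (N / (8 * M)) - 1 := by
    field_simp
    ring
  rw [h6] at h3
  have h7 : (1 : ℝ) ≤ N / (8 * M) := by
    rw [le_div_iff₀ (by positivity)]
    linarith
  have h8 : 1 / (8 * (M : ℝ)) * N = N / (8 * M) := by ring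
  rw [h8] at h5
  linarith

end Pool.Agent.Helper34.FY
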