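import Pool.Agent.Helper5.PV.Proc
import Pool.Agent.Helper45.PV.REV
import Pool.Agent.Helper45.PV.ORT
import Pool.Agent.Helper46.PV.DEC
import Pool.Agent.Helper46.PV.PEEL
import Pool.Agent.Helper56.PV.LOB
import Pool.Agent.Helper56.PV.PN
import Pool.Agent.Helper70.PV.BAD
import Pool.Agent.Helper70.PV.INTERP
import Pool.Agent.Helper70.PV.TK
import Pool.Agent.Helper70.PV.UPB
import Pool.Agent.Helper79.PV.CNT

/-! Processes of signs of positive entropy at the primes: unweighted correlations (swarm PV). -/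

set_option autoImplicit false

open MeasureTheory Filter Topology

namespace Pool.Agent.Helper34.FY

/-- two-sided sequences of signs `(y_j)`, `j ∈ ℤ` -/
abbrev Signs : Type := ℤ → ({-1, 1} : Set ℝ)

/-- the σ-algebra generated by the signs `y_j`, `j < n` -/
@[reducible] noncomputable def Before (n : ℤ) : MeasurableSpace Signs :=
  MeasurableSpace.comap (fun (y : Signs) (i : Set.Iio n) => y i) MeasurableSpace.pi

/-- `μ` is the law of an ergodic stationary process of signs with positive entropy: `y_0` is not almost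
surely a measurable function of the past `(y_j)`, `j < 0` -/
structure PositiveEntropy (μ : Measure Signs) : Prop where
  prob : IsProbabilityMeasure μ
  ergodic : Ergodic (fun (y : Signs) (j : ℤ) => y (j + 1)) μ
  undetermined : ¬ ∃ h : Signs → ℝ, Measurable[Before 0] h ∧ ∀ᵐ y ∂μ, (y 0 : ℝ) = h y

open Pool.Agent.Helper5.PV in
/-- unweighted averages, for one bounded weight fixed in advance -/
theorem elliott {μ : Measure Signs} (hμ : PositiveEntropy μ) {f : Signs → ℕ → ℝ}
    (hone : ∀ y, f y 1 = 1) (hmul : ∀ y m n, Nat.Coprime m n → f y (m * n) = f y m * f y n)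
    (hval : ∀ y n, 1 ≤ n → f y n = 1 ∨ f y n = -1)
    (hprime : ∀ y (j : ℕ), f y (Nat.nth Nat.Prime j) = y j)
    (hadapt : ∀ j e : ℕ, Measurable[Before (j + 1)] fun y => f y (Nat.nth Nat.Prime j ^ e))
    (w : ℕ → ℝ) (hw : ∀ n, |w n| ≤ 1) (H : Finset ℕ) (hH : H.Nonempty) :
    ∀ᵐ y ∂μ, Tendsto (fun N : ℕ => (∑ n ∈ Finset.Icc 1 N, w n * ∏ h ∈ H, f y (n + h)) / (N : ℝ))
        atTop (𝓝 0) := by
  have hprob := hμ.prob
  have hsys : Sys μ (shf (E := ({-1, 1} : Set ℝ))) (bef ({-1, 1} : Set ℝ)) := sys_of hμ.ergodic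
  set G : Fin 1 → Signs → ℕ → ℂ := fun _ y n => if n = 0 then 1 else (f y n : ℂ) with hG
  have hmc : Measurable fun e : ({-1, 1} : Set ℝ) => ((e : ℝ) : ℂ) :=
    Complex.measurable_ofReal.comp measurable_subtype_coe
  have hcard : 0 < H.card := hH.card_pos
  have h := main_abs Pool.Agent.Helper45.PV.REV.rev
    (Pool.Agent.Helper46.PV.peel Pool.Agent.Helper45.PV.ORT.ort) Pool.Agent.Helper79.PV.sub
    Pool.Agent.Helper70.PV.interp (Pool.Agent.Helper70.PV.upb Pool.Agent.Helper56.PV.pn)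
    (Pool.Agent.Helper79.PV.hit (Pool.Agent.Helper56.PV.lob Pool.Agent.Helper56.PV.pn)
      Pool.Agent.Helper70.PV.tk)
    Pool.Agent.Helper79.PV.cnt Pool.Agent.Helper70.PV.BAD.bad Pool.Agent.Helper46.PV.dec hsys
    (fun (_ : Fin 1) (y : Signs) => ((y 0 : ℝ) : ℂ))
    (fun _ => hmc.comp (meas_coord (by norm_num)))
    (fun _ y => by
      have h1 := (y 0).2
      simp only [Set.mem_insert_iff, Set.mem_singleton_iff] at h1
      rw [Complex.norm_real]
      rcases h1 with h1 | h1 <;> rw [h1] <;> simp)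
    G
    (fun _ y n => by
      simp only [hG]
      split_ifs with hn
      · simp
      · rw [Complex.norm_real]
        rcases hval y n (by omega) with h1 | h1 <;> rw [h1] <;> simp)
    (fun _ y => by
      simp only [hG]
      rw [if_neg one_ne_zero, hone y]
      simp)
    (fun _ y m n hmn => by
      simp only [hG]
      rcases Nat.eq_zero_or_pos m with hm | hm
      · subst hm
        rw [Nat.coprime_zero_left] at hmn
        subst hmn
        simp [hone y]
      rcases Nat.eq_zero_or_pos n with hn | hn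
      · subst hn
        rw [Nat.coprime_zero_right] at hmn
        subst hmn
        simp [hone y]
      · rw [if_neg (Nat.mul_pos hm hn).ne', if_neg hm.ne', if_neg hn.ne', hmul y m n hmn]
        push_cast
        rfl)
    (fun _ y q => by
      simp only [hG]
      rw [if_neg (Nat.prime_nth_prime q).ne_zero, hprime y q]
      simp only [shf_iter, zero_add])
    (fun _ q e => by
      simp only [hG]
      have h1 : pr q ^ e ≠ 0 := pow_ne_zero _ (Nat.prime_nth_prime q).ne_zero
      simp only [if_neg h1]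
      exact Complex.measurable_ofReal.comp (hadapt q e))
    (fun n => (w n : ℂ)) (fun n => by rw [Complex.norm_real]; exact hw n)
    (k := H.card) (fun _ => 1) (fun i => H.orderEmbOfFin rfl i) (fun _ => le_rfl)
    (fun i j hij => by
      rw [one_mul, one_mul]
      intro h1
      exact hij ((H.orderEmbOfFin rfl).injective h1.symm))
    (fun _ => 0) ⟨0, hcard⟩
    (by
      rintro ⟨-, h2⟩
      have h3 := h2 0
      obtain ⟨h4, h5, h6⟩ := h3
      refine hμ.undetermined ⟨fun y => (h4 y).re, ?_, ?_⟩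
      · have e : (-((0 : ℕ) : ℤ)) = 0 := by simp
        rw [e] at h5
        exact Complex.measurable_re.comp h5.measurable
      · filter_upwards [h6] with y hy
        rw [← hy, Complex.ofReal_re])
  filter_upwards [h] with y hy
  have h1 : Tendsto (fun N : ℕ => (((∑ n ∈ Finset.Icc 1 N, w n * ∏ h ∈ H, f y (n + h)) / (N : ℝ) : ℝ) : ℂ))
      atTop (𝓝 0) := by
    refine hy.congr fun N => ?_
    push_cast
    congr 1
    refine Finset.sum_congr rfl fun n hn => ?_
    congr 1
    have e : ∏ h ∈ H, (f y (n + h) : ℂ) = ∏ i : Fin H.card, (f y (n + H.orderEmbOfFin rfl i) : ℂ) := by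
      conv_lhs => rw [← Finset.image_orderEmbOfFin_univ H rfl]
      rw [Finset.prod_image fun i _ j _ hij => (H.orderEmbOfFin rfl).injective hij]
    rw [e]
    refine Finset.prod_congr rfl fun i _ => ?_
    have hn1 := (Finset.mem_Icc.1 hn).1
    simp only [hG]
    rw [one_mul, if_neg (by omega)]
  have h2 : Tendsto (fun N : ℕ => ((((∑ n ∈ Finset.Icc 1 N, w n * ∏ h ∈ H, f y (n + h)) / (N : ℝ) : ℝ) :
      ℂ)).re) atTop (𝓝 (0 : ℂ).re) := (Complex.continuous_re.tendsto 0).comp h1
  simp only [Complex.ofReal_re, Complex.zero_re] at h2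
  exact h2

/-- patterns from correlations: `F` with values `1`, `-1`, all correlations along `S` vanish -/
theorem patterns {F : ℕ → ℝ} (hF : ∀ n, 1 ≤ n → F n = 1 ∨ F n = -1) (S : ℕ → ℝ)
    (hc : ∀ H : Finset ℕ, H.Nonempty → Tendsto (fun N : ℕ =>
      (∑ m ∈ Finset.Icc 1 N, S m * ∏ h ∈ H, F (m + h)) / (N : ℝ)) atTop (𝓝 0))
    (k : ℕ) (e : Fin k → ℝ) (he : ∀ j, e j = 1 ∨ e j = -1) :
    Tendsto (fun N : ℕ => (∑ m ∈ Finset.Icc 1 N, S m * (if ∀ j : Fin k, F (m + (j + 1)) = e j then 1 else 0)) / (N : ℝ)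
      - (1 / 2) ^ k * ((∑ m ∈ Finset.Icc 1 N, S m) / (N : ℝ))) atTop (𝓝 0) := by
  classical
  have key : ∀ m : ℕ, (if ∀ j : Fin k, F (m + (j + 1)) = e j then (1 : ℝ) else 0) =
      (1 / 2) ^ k * ∑ T : Finset (Fin k), (∏ j ∈ T, e j) *
        ∏ h ∈ T.image (fun j : Fin k => (j : ℕ) + 1), F (m + h) := by
    intro m
    have e0 : ∀ T : Finset (Fin k), (∏ j ∈ T, e j) *
        ∏ h ∈ T.image (fun j : Fin k => (j : ℕ) + 1), F (m + h) =
        ∏ j ∈ T, (e j * F (m + ((j : ℕ) + 1))) := by
      intro T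
      rw [Finset.prod_image (fun a _ c _ h => Fin.ext (by simpa using h)), Finset.prod_mul_distrib]
    rw [Finset.sum_congr rfl fun T _ => e0 T]
    have e1 : ∑ T : Finset (Fin k), ∏ j ∈ T, (e j * F (m + ((j : ℕ) + 1))) =
        ∏ j : Fin k, (1 + e j * F (m + ((j : ℕ) + 1))) := by
      rw [Finset.prod_one_add, Finset.powerset_univ]
    rw [e1]
    split_ifs with hall
    · have e2 : ∀ j : Fin k, 1 + e j * F (m + ((j : ℕ) + 1)) = 2 := by
        intro j
        rw [hall j]
        rcases he j with h | h <;> rw [h] <;> norm_num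
      rw [Finset.prod_congr rfl fun j _ => e2 j, Finset.prod_const, Finset.card_univ, Fintype.card_fin,
        ← mul_pow]
      norm_num
    · push Not at hall
      obtain ⟨j, hj⟩ := hall
      have e3 : 1 + e j * F (m + ((j : ℕ) + 1)) = 0 := by
        rcases he j with h1 | h1 <;> rcases hF (m + ((j : ℕ) + 1)) (by omega) with h2 | h2 <;>
          first | exact absurd (h2.trans h1.symm) hj | (rw [h1, h2]; norm_num)
      rw [Finset.prod_eq_zero (Finset.mem_univ j) e3, mul_zero]
  have h1 : ∀ N : ℕ, (∑ m ∈ Finset.Icc 1 N, S m * (if ∀ j : Fin k, F (m + (j + 1)) = e j then (1 : ℝ) else 0)) / (N : ℝ)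
      - (1 / 2) ^ k * ((∑ m ∈ Finset.Icc 1 N, S m) / (N : ℝ)) =
      ∑ T ∈ (Finset.univ : Finset (Finset (Fin k))).erase ∅, (1 / 2) ^ k * (∏ j ∈ T, e j) *
        ((∑ m ∈ Finset.Icc 1 N, S m * ∏ h ∈ T.image (fun j : Fin k => (j : ℕ) + 1), F (m + h)) / (N : ℝ)) := by
    intro N
    have h2 : ∑ m ∈ Finset.Icc 1 N, S m * (if ∀ j : Fin k, F (m + (j + 1)) = e j then (1 : ℝ) else 0) =
        ∑ T : Finset (Fin k), (1 / 2) ^ k * (∏ j ∈ T, e j) *
          ∑ m ∈ Finset.Icc 1 N, S m * ∏ h ∈ T.image (fun j : Fin k => (j : ℕ) + 1), F (m + h) := by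
      have h3 : ∀ T : Finset (Fin k), (1 / 2 : ℝ) ^ k * (∏ j ∈ T, e j) *
          ∑ m ∈ Finset.Icc 1 N, S m * ∏ h ∈ T.image (fun j : Fin k => (j : ℕ) + 1), F (m + h) =
          ∑ m ∈ Finset.Icc 1 N, (1 / 2 : ℝ) ^ k * (∏ j ∈ T, e j) *
            (S m * ∏ h ∈ T.image (fun j : Fin k => (j : ℕ) + 1), F (m + h)) := fun T => Finset.mul_sum _ _ _
      rw [Finset.sum_congr rfl fun T _ => h3 T, Finset.sum_comm]
      refine Finset.sum_congr rfl fun m _ => ?_
      rw [key m, Finset.mul_sum, Finset.mul_sum]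
      refine Finset.sum_congr rfl fun T _ => ?_
      ring
    rw [h2, ← Finset.add_sum_erase _ _ (Finset.mem_univ (∅ : Finset (Fin k)))]
    simp only [Finset.prod_empty, mul_one, Finset.image_empty]
    rw [add_div, Finset.sum_div, mul_div_assoc, add_sub_cancel_left]
    refine Finset.sum_congr rfl fun T _ => ?_
    rw [mul_div_assoc]
  refine Tendsto.congr (fun N => (h1 N).symm) ?_
  have h2 : (0 : ℝ) = ∑ T ∈ (Finset.univ : Finset (Finset (Fin k))).erase ∅, (1 / 2) ^ k * (∏ j ∈ T, e j) * 0 := by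
    simp
  rw [h2]
  refine tendsto_finsetSum _ fun T hT => ?_
  refine Tendsto.const_mul _ (hc _ ?_)
  exact (Finset.nonempty_iff_ne_empty.2 (Finset.ne_of_mem_erase hT)).image _

end Pool.Agent.Helper34.FY
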