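import Mathlib

/-! Natural averages tending to `0`: so do the logarithmic ones. -/

set_option autoImplicit false

open Finset Filter Topology

namespace Pool.Agent.Helper34.FY

lemma abel (a : ℕ → ℝ) (N : ℕ) :
    ∑ n ∈ Icc 1 N, a n / n = (∑ n ∈ Icc 1 N, a n) / (N + 1) +
      ∑ n ∈ Icc 1 N, (∑ m ∈ Icc 1 n, a m) / ((n : ℝ) * (n + 1)) := by
  induction N with
  | zero => simp
  | succ N ih =>
    have h1 : (1 : ℕ) ≤ N + 1 := by omega
    rw [Finset.sum_Icc_succ_top h1, Finset.sum_Icc_succ_top h1, Finset.sum_Icc_succ_top h1, ih]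
    rw [Finset.sum_Icc_succ_top h1]
    push_cast
    have h2 : ((N : ℝ) + 1) ≠ 0 := by positivity
    have h3 : ((N : ℝ) + 1 + 1) ≠ 0 := by positivity
    field_simp
    ring

lemma harm_le (N : ℕ) : ∑ n ∈ Icc 1 N, 1 / ((n : ℝ) + 1) ≤ 1 + Real.log N := by
  have h := harmonic_le_one_add_log N
  refine le_trans ?_ h
  rw [harmonic_eq_sum_Icc]
  push_cast
  refine sum_le_sum fun n hn => ?_
  have h1 := (mem_Icc.1 hn).1
  have h2 : (0 : ℝ) < n := by exact_mod_cast h1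
  rw [← one_div]
  exact one_div_le_one_div_of_le h2 (by linarith)

/-- natural averages tending to `0` -/
theorem log_of_nat {a : ℕ → ℝ} (ha : ∀ n, |a n| ≤ 1)
    (h : Tendsto (fun N : ℕ => (∑ n ∈ Icc 1 N, a n) / (N : ℝ)) atTop (𝓝 0)) :
    Tendsto (fun N : ℕ => (∑ n ∈ Icc 1 N, a n / n) / Real.log N) atTop (𝓝 0) := by
  have hS : ∀ N : ℕ, |∑ n ∈ Icc 1 N, a n| ≤ N := by
    intro N
    refine (abs_sum_le_sum_abs _ _).trans ?_
    refine (sum_le_sum fun n _ => ha n).trans ?_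
    simp
  have hlog : Tendsto (fun N : ℕ => Real.log (N : ℝ)) atTop atTop :=
    Real.tendsto_log_atTop.comp tendsto_natCast_atTop_atTop
  rw [Metric.tendsto_nhds]
  intro ε hε
  rw [Metric.tendsto_nhds] at h
  obtain ⟨N₀, hN₀⟩ := eventually_atTop.1 (h (ε / 2) (by positivity))
  filter_upwards [hlog.eventually_gt_atTop ((1 + N₀ + ε / 2) / (ε / 2)), eventually_ge_atTop 1,
    hlog.eventually_gt_atTop 0] with N h1 h2 h3
  rw [Real.dist_eq, sub_zero, abs_div, abs_of_pos h3, div_lt_iff₀ h3, abel]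
  have h4 : |(∑ n ∈ Icc 1 N, a n) / ((N : ℝ) + 1)| ≤ 1 := by
    rw [abs_div, abs_of_pos (by positivity : (0 : ℝ) < (N : ℝ) + 1), div_le_one (by positivity)]
    linarith [hS N]
  have h5 : |∑ n ∈ Icc 1 N, (∑ m ∈ Icc 1 n, a m) / ((n : ℝ) * (n + 1))| ≤
      ∑ n ∈ Icc 1 N, ((if n < N₀ then 1 else 0) + ε / 2 * (1 / ((n : ℝ) + 1))) := by
    refine (abs_sum_le_sum_abs _ _).trans (sum_le_sum fun n hn => ?_)
    have hn1 := (mem_Icc.1 hn).1
    have hn2 : (0 : ℝ) < n := by exact_mod_cast hn1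
    rw [abs_div, abs_of_pos (by positivity : (0 : ℝ) < (n : ℝ) * (n + 1))]
    split_ifs with hlt
    · have h6 : |∑ m ∈ Icc 1 n, a m| / ((n : ℝ) * (n + 1)) ≤ 1 := by
        rw [div_le_one (by positivity)]
        have h7 := hS n
        have h8 : (1 : ℝ) ≤ (n : ℝ) + 1 := by linarith
        nlinarith
      have h9 : 0 ≤ ε / 2 * (1 / ((n : ℝ) + 1)) := by positivity
      linarith
    · have h6 := hN₀ n (by omega)
      rw [Real.dist_eq, sub_zero, abs_div, abs_of_pos hn2, div_lt_iff₀ hn2] at h6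
      rw [zero_add, div_le_iff₀ (by positivity)]
      have h7 : ε / 2 * (1 / ((n : ℝ) + 1)) * ((n : ℝ) * (n + 1)) = ε / 2 * n := by
        field_simp
      rw [h7]
      exact h6.le
  have h6 : ∑ n ∈ Icc 1 N, ((if n < N₀ then (1 : ℝ) else 0) + ε / 2 * (1 / ((n : ℝ) + 1))) ≤
      N₀ + ε / 2 * (1 + Real.log N) := by
    rw [sum_add_distrib, ← mul_sum]
    refine add_le_add ?_ (mul_le_mul_of_nonneg_left (harm_le N) (by positivity))
    rw [← sum_filter, sum_const, nsmul_eq_mul, mul_one]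
    have : (Icc 1 N).filter (fun n => n < N₀) ⊆ range N₀ := by
      intro n hn
      rw [mem_filter] at hn
      exact mem_range.2 hn.2
    have h7 := card_le_card this
    rw [card_range] at h7
    exact_mod_cast h7
  rw [div_lt_iff₀ (by positivity)] at h1
  have h7 := abs_add_le ((∑ n ∈ Icc 1 N, a n) / ((N : ℝ) + 1))
    (∑ n ∈ Icc 1 N, (∑ m ∈ Icc 1 n, a m) / ((n : ℝ) * (n + 1)))
  nlinarith

end Pool.Agent.Helper34.FY
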